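import Mathlib
import Pool.Agent.W601.SQ.Stm

/-!
# Compact subsets of the dual group are finite
-/

set_option autoImplicit false

open scoped Classical Cardinal
open Filter Topology

namespace Pool.Agent.W348.SQ

open Pool.Agent.W601.SQ

/-- evaluation at a point is continuous on the dual -/
theorem cont_eval {A : Type} [Monoid A] [TopologicalSpace A] (a : A) :
    Continuous (fun χ : PontryaginDual A => χ a) := by
  have h1 := (ContinuousMonoidHom.isInducing_toContinuousMap A Circle).continuous
  have h2 : Continuous (fun f : C(A, Circle) => f a) := continuous_eval_const a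
  exact h2.comp h1

theorem cd : S_ALG → S_BETA → S_CHAR → S_CD := by
  rintro ⟨-, -, a3, -, -, -, a7, -, a9, -, -, -, -⟩ hB hC θ hG K hK
  by_contra hinf
  have hKi : K.Infinite := hinf
  -- every element of the dual is given by an integer vector
  have hS : ∀ χ : PontryaginDual ↥(GG θ), ∃ s : ℝ →₀ ℤ, ∀ x : ↥(GG θ), χ x = ch s (x : ℝ → Circle) := by
    intro χ
    exact hC ℝ (GG θ) (MonoidHomClass.toMonoidHom χ) (map_continuous χ)
  choose S hS using hS
  have hSinj : Function.Injective S := by
    intro χ χ' h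
    apply PontryaginDual.ext
    intro x
    rw [hS, hS, h]
  have hcard : #(PontryaginDual ↥(GG θ)) ≤ 𝔠 := by
    refine (Cardinal.mk_le_of_injective hSinj).trans ?_
    rw [Cardinal.mk_finsupp_of_infinite, Cardinal.mk_real, Cardinal.mk_int]
    exact max_le le_rfl Cardinal.aleph0_le_continuum
  let z : ℕ ↪ K := Set.Infinite.natEmbedding K hKi
  have hzinj : Function.Injective (fun j => S (z j : PontryaginDual ↥(GG θ))) := by
    intro i j h
    exact z.injective (Subtype.ext (hSinj h))
  obtain ⟨φ, -, hφ⟩ := hG.1 (fun j => S (z j : PontryaginDual ↥(GG θ))) hzinj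
  have h1 := hB (PontryaginDual ↥(GG θ)) K hK (fun j => (z (φ j) : PontryaginDual ↥(GG θ)))
    (fun j => (z (φ j)).2) (fun J => by
      obtain ⟨α, hα⟩ := hφ J
      have hg : gm θ (Finsupp.single α 1) ∈ GG θ := (a7 θ _).2 ⟨_, rfl⟩
      refine ⟨fun χ => χ (⟨gm θ (Finsupp.single α 1), hg⟩ : ↥(GG θ)), cont_eval _, fun j => ?_⟩
      have h2 := a3 (ip (S (z (φ j) : PontryaginDual ↥(GG θ))) (θ α)) (tg J j) (hα j)
      rw [← a9] at h2
      show dist ((z (φ j) : PontryaginDual ↥(GG θ)) (⟨gm θ (Finsupp.single α 1), hg⟩ : ↥(GG θ)))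
        (cx (tg J j)) ≤ 9 / 10
      rw [hS]
      exact h2)
  exact absurd (h1.trans hcard) (not_le.2 (Cardinal.cantor 𝔠))

end Pool.Agent.W348.SQ
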